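import Pool.Agent.Helper98.TW.Stmts

/-!
Row PSI of the sheet TW: the operator of a function.
-/

set_option autoImplicit false

open MeasureTheory Filter Topology Finset
open scoped ComplexConjugate ENNReal

namespace Pool.Agent.Helper19.TWR

open Pool.Agent.Helper98.TW

section gen

variable {Ω : Type} [MeasurableSpace Ω] {μ : Measure Ω} [IsProbabilityMeasure μ]
variable {V : Type} [NormedAddCommGroup V] [InnerProductSpace ℂ V] [FiniteDimensional ℂ V]
variable {C : SA Ω}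

theorem ps_inner_memLp {f : Ω → V} {B : ℝ} (hf : AEStronglyMeasurable f μ)
    (hB : ∀ x, ‖f x‖ ≤ B) (G : Lp V 2 μ) :
    MemLp (fun x => (inner ℂ (f x) (G x) : ℂ)) 2 μ := by
  refine (Lp.memLp G).of_le_mul (c := B) ?_ (Eventually.of_forall fun x => ?_)
  · exact hf.inner (Lp.aestronglyMeasurable G)
  · exact (norm_inner_le_norm _ _).trans (mul_le_mul_of_nonneg_right (hB x) (norm_nonneg _))

theorem ps_B_nonneg {f : Ω → V} {B : ℝ} (μ : Measure Ω) [IsProbabilityMeasure μ]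
    (hB : ∀ x, ‖f x‖ ≤ B) : 0 ≤ B := by
  obtain ⟨x⟩ := nonempty_of_isProbabilityMeasure μ
  exact (norm_nonneg _).trans (hB x)

/-- the operator `G ↦ E(<f, G> | C)` -/
theorem ps_exK (C : SA Ω) {f : Ω → V} {B : ℝ} (hf : AEStronglyMeasurable f μ)
    (hB : ∀ x, ‖f x‖ ≤ B) :
    ∃ K : Lp V 2 μ →L[ℂ] Lp ℂ 2 μ,
      (∀ G : Lp V 2 μ, K G =ᵐ[μ] μ[fun x => (inner ℂ (f x) (G x) : ℂ)|C]) ∧
      ∀ G, ‖K G‖ ≤ B * ‖G‖ := by
  have hB0 : 0 ≤ B := ps_B_nonneg μ hB
  have hm : ∀ G : Lp V 2 μ, MemLp (μ[fun x => (inner ℂ (f x) (G x) : ℂ)|C]) 2 μ := fun G =>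
    (ps_inner_memLp hf hB G).condExp (by norm_num)
  have hi : ∀ G : Lp V 2 μ, Integrable (fun x => (inner ℂ (f x) (G x) : ℂ)) μ := fun G =>
    (ps_inner_memLp hf hB G).integrable (by norm_num)
  let K0 : Lp V 2 μ →ₗ[ℂ] Lp ℂ 2 μ :=
    { toFun := fun G => (hm G).toLp _
      map_add' := by
        intro G G'
        apply Lp.ext
        refine (hm (G + G')).coeFn_toLp.trans ?_
        refine EventuallyEq.trans ?_ (Lp.coeFn_add _ _).symm
        have h1 : (fun x => (inner ℂ (f x) ((G + G' : Lp V 2 μ) x) : ℂ)) =ᵐ[μ]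
            (fun x => (inner ℂ (f x) (G x) : ℂ)) + fun x => (inner ℂ (f x) (G' x) : ℂ) := by
          filter_upwards [Lp.coeFn_add G G'] with x hx
          rw [hx]
          simp [inner_add_right]
        refine (condExp_congr_ae h1).trans ((condExp_add (hi G) (hi G') C).trans ?_)
        exact ((hm G).coeFn_toLp.add (hm G').coeFn_toLp).symm
      map_smul' := by
        intro c G
        apply Lp.ext
        refine (hm (c • G)).coeFn_toLp.trans ?_
        refine EventuallyEq.trans ?_ (Lp.coeFn_smul _ _).symm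
        have h1 : (fun x => (inner ℂ (f x) ((c • G : Lp V 2 μ) x) : ℂ)) =ᵐ[μ]
            c • (fun x => (inner ℂ (f x) (G x) : ℂ)) := by
          filter_upwards [Lp.coeFn_smul c G] with x hx
          rw [hx]
          simp [inner_smul_right]
        refine (condExp_congr_ae h1).trans ((condExp_smul c _ C).trans ?_)
        exact ((hm G).coeFn_toLp.const_smul c).symm }
  have hb : ∀ G, ‖K0 G‖ ≤ B * ‖G‖ := by
    intro G
    show ‖(hm G).toLp _‖ ≤ _
    rw [Lp.norm_toLp]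
    have h1 : eLpNorm (μ[fun x => (inner ℂ (f x) (G x) : ℂ)|C]) 2 μ ≤
        ENNReal.ofReal B * eLpNorm G 2 μ := by
      refine (eLpNorm_condExp_le_eLpNorm _ (by norm_num)).trans ?_
      refine eLpNorm_le_mul_eLpNorm_of_ae_le_mul (Eventually.of_forall fun x => ?_) 2
      exact (norm_inner_le_norm _ _).trans (mul_le_mul_of_nonneg_right (hB x) (norm_nonneg _))
    have h2 := ENNReal.toReal_mono (ENNReal.mul_ne_top ENNReal.ofReal_ne_top
      (Lp.eLpNorm_ne_top G)) h1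
    rw [ENNReal.toReal_mul, ENNReal.toReal_ofReal hB0] at h2
    rw [Lp.norm_def]
    exact h2
  exact ⟨K0.mkContinuous B hb, fun G => (hm G).coeFn_toLp, hb⟩

/-- integrals against `C`-measurable functions -/
theorem ps_intmul (hC : Lm C) {c u : Ω → ℂ} {K : ℝ} (hc : AM μ C c)
    (hK : ∀ᵐ x ∂μ, ‖c x‖ ≤ K) (hu : Integrable u μ) :
    ∫ x, c x * u x ∂μ = ∫ x, c x * (μ[u|C]) x ∂μ := by
  have hc0 : AEStronglyMeasurable c μ := AEStronglyMeasurable.mono hC hc
  have hi : Integrable (fun x => c x * u x) μ := hu.bdd_mul hc0 hK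
  have h1 := condExp_bilin_of_aestronglyMeasurable_left (μ := μ) (m := C)
    (ContinuousLinearMap.mul ℝ ℂ) (f := c) (g := u) hc hi hu
  rw [← integral_condExp (m := C) (f := fun x => c x * u x) hC]
  exact integral_congr_ae h1

theorem ps_norm_sq {W : Type} [NormedAddCommGroup W] [InnerProductSpace ℂ W] (G : Lp W 2 μ) :
    ‖G‖ ^ 2 = ∫ x, ‖G x‖ ^ 2 ∂μ := by
  have h1 : ((‖G‖ ^ 2 : ℝ) : ℂ) = ((∫ x, ‖G x‖ ^ 2 ∂μ : ℝ) : ℂ) := by
    have h2 : (inner ℂ G G : ℂ) = ((‖G‖ : ℂ)) ^ 2 := inner_self_eq_norm_sq_to_K G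
    rw [Complex.ofReal_pow, ← h2, L2.inner_def]
    refine Eq.trans ?_ integral_ofReal
    refine integral_congr_ae (Eventually.of_forall fun x => ?_)
    have h3 : (inner ℂ (G x) (G x) : ℂ) = ((‖G x‖ : ℂ)) ^ 2 := inner_self_eq_norm_sq_to_K (G x)
    show (inner ℂ (G x) (G x) : ℂ) = ((‖G x‖ ^ 2 : ℝ) : ℂ)
    rw [h3, Complex.ofReal_pow]
  exact_mod_cast h1

/-- conditional expectations of `<f, e>` are bounded for normalised `e` -/
theorem ps_bound (hC : Lm C) {f : Ω → V} {B : ℝ} (hf : AEStronglyMeasurable f μ)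
    (hB : ∀ x, ‖f x‖ ≤ B) (e : Lp V 2 μ)
    (he : μ[fun x => (inner ℂ (e x) (e x) : ℂ)|C] =ᵐ[μ] fun _ => 1) :
    ∀ᵐ x ∂μ, ‖(μ[fun x => (inner ℂ (f x) (e x) : ℂ)|C]) x‖ ≤ B := by
  have hB0 : 0 ≤ B := ps_B_nonneg μ hB
  have hee : Integrable (fun x => (inner ℂ (e x) (e x) : ℂ)) μ := L2.integrable_inner e e
  have hn : Integrable (fun x => ‖e x‖ ^ 2) μ := by
    have h1 := hee.re
    refine h1.congr (Eventually.of_forall fun x => ?_)
    exact (@inner_self_eq_norm_sq ℂ V _ _ _ (e x))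
  have hre : μ[fun x => ‖e x‖ ^ 2|C] =ᵐ[μ] fun _ => 1 := by
    have h1 := ContinuousLinearMap.comp_condExp_comm (m := C) hee Complex.reCLM
    have h2 : (Complex.reCLM : ℂ → ℝ) ∘ (fun x => (inner ℂ (e x) (e x) : ℂ)) =
        fun x => ‖e x‖ ^ 2 := by
      funext x
      exact (@inner_self_eq_norm_sq ℂ V _ _ _ (e x))
    rw [h2] at h1
    refine h1.symm.trans ?_
    filter_upwards [he] with x hx
    rw [Function.comp_apply, hx]
    simp
  have hg : Integrable (fun x => ‖(inner ℂ (f x) (e x) : ℂ)‖ ^ (2 : ℝ)) μ := by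
    have h1 := (memLp_two_iff_integrable_sq_norm (ps_inner_memLp hf hB e).1).1
      (ps_inner_memLp hf hB e)
    refine h1.congr (Eventually.of_forall fun x => ?_)
    norm_cast
  have h2 := Integrable.norm_condExp_rpow_le (m := C) (p := 2) (by norm_num) hg
  have h3 : μ[fun x => ‖(inner ℂ (f x) (e x) : ℂ)‖ ^ (2 : ℝ)|C] ≤ᵐ[μ]
      μ[fun x => B ^ 2 * ‖e x‖ ^ 2|C] := by
    refine condExp_mono hg (hn.const_mul _) (Eventually.of_forall fun x => ?_)
    show ‖(inner ℂ (f x) (e x) : ℂ)‖ ^ (2 : ℝ) ≤ B ^ 2 * ‖e x‖ ^ 2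
    rw [Real.rpow_two, ← mul_pow]
    exact pow_le_pow_left₀ (norm_nonneg _) ((norm_inner_le_norm _ _).trans
      (mul_le_mul_of_nonneg_right (hB x) (norm_nonneg _))) 2
  have h4 : μ[fun x => B ^ 2 * ‖e x‖ ^ 2|C] =ᵐ[μ] fun _ => B ^ 2 := by
    have h5 := condExp_smul (μ := μ) (B ^ 2) (fun x => ‖e x‖ ^ 2) C
    refine h5.trans ?_
    filter_upwards [hre] with x hx
    simp [hx]
  filter_upwards [h2, h3, h4] with x h2 h3 h4
  have h5 : ‖(μ[fun x => (inner ℂ (f x) (e x) : ℂ)|C]) x‖ ^ (2 : ℝ) ≤ B ^ 2 := by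
    refine h2.trans (h3.trans ?_)
    rw [h4]
  rw [Real.rpow_two] at h5
  exact (abs_le_of_sq_le_sq' h5 hB0).2

/-- Bessel's inequality over `C` -/
theorem ps_bessel (hC : Lm C) {f : Ω → V} {B : ℝ} (hf : AEStronglyMeasurable f μ)
    (hB : ∀ x, ‖f x‖ ≤ B) {m : ℕ} (e : Fin m → Lp V 2 μ) (he : ON μ C e) :
    ∑ a, ∫ x, ‖(μ[fun x => (inner ℂ (f x) (e a x) : ℂ)|C]) x‖ ^ 2 ∂μ ≤ ∫ x, ‖f x‖ ^ 2 ∂μ := by
  classical
  have hB0 : 0 ≤ B := ps_B_nonneg μ hB
  set d : Fin m → Ω → ℂ := fun a => μ[fun x => (inner ℂ (f x) (e a x) : ℂ)|C] with hd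
  have hdm : ∀ a, AM μ C (d a) := fun a => stronglyMeasurable_condExp.aestronglyMeasurable
  have hdb : ∀ a, ∀ᵐ x ∂μ, ‖d a x‖ ≤ B := by
    intro a
    refine ps_bound hC hf hB (e a) ?_
    have h1 := he a a
    simpa using h1
  have hd0 : ∀ a, AEStronglyMeasurable (d a) μ := fun a => AEStronglyMeasurable.mono hC (hdm a)
  have hf2 : MemLp f 2 μ := MemLp.of_bound hf B (Eventually.of_forall hB)
  have hfe : ∀ a, Integrable (fun x => (inner ℂ (f x) (e a x) : ℂ)) μ := fun a =>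
    (ps_inner_memLp hf hB (e a)).integrable (by norm_num)
  have hgm : ∀ a, MemLp (fun x => conj (d a x) • e a x) 2 μ := by
    intro a
    refine (Lp.memLp (e a)).of_le_mul (c := B) ?_ ?_
    · exact (Complex.continuous_conj.comp_aestronglyMeasurable (hd0 a)).smul
        (Lp.aestronglyMeasurable (e a))
    · filter_upwards [hdb a] with x hx
      rw [norm_smul, RCLike.norm_conj]
      exact mul_le_mul_of_nonneg_right hx (norm_nonneg _)
  set F' : Lp V 2 μ := hf2.toLp f with hF'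
  set g : Fin m → Lp V 2 μ := fun a => (hgm a).toLp _ with hg
  -- the scalar products
  have h1 : ∀ a, (inner ℂ F' (g a) : ℂ) = ((∫ x, ‖d a x‖ ^ 2 ∂μ : ℝ) : ℂ) := by
    intro a
    rw [L2.inner_def]
    have h2 : (fun x => (inner ℂ (F' x) (g a x) : ℂ)) =ᵐ[μ]
        fun x => conj (d a x) * (inner ℂ (f x) (e a x) : ℂ) := by
      filter_upwards [hf2.coeFn_toLp, (hgm a).coeFn_toLp] with x hx hx'
      rw [hx, hx', inner_smul_right]
    refine (integral_congr_ae h2).trans ((ps_intmul hC (c := fun x => conj (d a x))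
      (Complex.continuous_conj.comp_aestronglyMeasurable (hdm a)) (K := B)
      (by filter_upwards [hdb a] with x hx; rwa [RCLike.norm_conj]) (hfe a)).trans
      (Eq.trans ?_ integral_ofReal))
    refine integral_congr_ae (Eventually.of_forall fun x => ?_)
    show conj (d a x) * d a x = ((‖d a x‖ ^ 2 : ℝ) : ℂ)
    rw [RCLike.conj_mul]
    norm_cast
  have h2 : ∀ a b, (inner ℂ (g a) (g b) : ℂ) =
      if a = b then ((∫ x, ‖d a x‖ ^ 2 ∂μ : ℝ) : ℂ) else 0 := by
    intro a b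
    rw [L2.inner_def]
    have h3 : (fun x => (inner ℂ (g a x) (g b x) : ℂ)) =ᵐ[μ]
        fun x => (d a x * conj (d b x)) * (inner ℂ (e a x) (e b x) : ℂ) := by
      filter_upwards [(hgm a).coeFn_toLp, (hgm b).coeFn_toLp] with x hx hx'
      rw [hx, hx', inner_smul_left, inner_smul_right, Complex.conj_conj]
      ring
    have hm : AM μ C (fun x => d a x * conj (d b x)) :=
      (hdm a).mul (Complex.continuous_conj.comp_aestronglyMeasurable (hdm b))
    refine (integral_congr_ae h3).trans ((ps_intmul hC hm (K := B * B)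
      (by
        filter_upwards [hdb a, hdb b] with x hx hx'
        rw [norm_mul, RCLike.norm_conj]
        exact mul_le_mul hx hx' (norm_nonneg _) hB0)
      (L2.integrable_inner (e a) (e b))).trans ?_)
    have h4 := he b a
    by_cases hab : a = b
    · subst hab
      rw [if_pos rfl]
      refine Eq.trans (integral_congr_ae ?_) integral_ofReal
      filter_upwards [h4] with x hx
      rw [hx, if_pos rfl, mul_one, RCLike.mul_conj]
      norm_cast
    · rw [if_neg hab]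
      refine (integral_congr_ae (g := fun _ => (0 : ℂ)) ?_).trans (by simp)
      filter_upwards [h4] with x hx
      rw [hx, if_neg (fun h => hab h.symm), mul_zero]
  set S : ℝ := ∑ a, ∫ x, ‖d a x‖ ^ 2 ∂μ with hS
  have hS0 : 0 ≤ S := Finset.sum_nonneg fun a _ => integral_nonneg fun x => sq_nonneg _
  have h3 : (inner ℂ F' (∑ a, g a) : ℂ) = (S : ℂ) := by
    rw [inner_sum, hS]
    push_cast
    exact Finset.sum_congr rfl fun a _ => by rw [h1 a]
  have h4 : ‖∑ a, g a‖ ^ 2 = S := by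
    have h5 : (inner ℂ (∑ a, g a) (∑ a, g a) : ℂ) = (S : ℂ) := by
      rw [inner_sum]
      have h6 : ∀ b, (inner ℂ (∑ a, g a) (g b) : ℂ) = ((∫ x, ‖d b x‖ ^ 2 ∂μ : ℝ) : ℂ) := by
        intro b
        rw [sum_inner, Finset.sum_congr rfl fun a _ => h2 a b, Finset.sum_ite_eq' Finset.univ b]
        simp
      rw [Finset.sum_congr rfl fun b _ => h6 b, hS]
      push_cast
      rfl
    have h7 : (inner ℂ (∑ a, g a) (∑ a, g a) : ℂ) = ((‖∑ a, g a‖ : ℂ)) ^ 2 :=
      inner_self_eq_norm_sq_to_K _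
    rw [h5] at h7
    exact_mod_cast h7.symm
  have h5 : S ≤ ‖F'‖ * ‖∑ a, g a‖ := by
    have h6 := norm_inner_le_norm (𝕜 := ℂ) F' (∑ a, g a)
    rw [h3, Complex.norm_real, Real.norm_of_nonneg hS0] at h6
    exact h6
  have h6 : ‖F'‖ ^ 2 = ∫ x, ‖f x‖ ^ 2 ∂μ := by
    rw [ps_norm_sq]
    refine integral_congr_ae ?_
    filter_upwards [hf2.coeFn_toLp] with x hx
    rw [hx]
  rw [← h6]
  nlinarith [sq_nonneg (‖F'‖ - ‖∑ a, g a‖)]

/-- conditional expectations and products with bounded `C`-measurable functions -/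
theorem ps_Kc (hC : Lm C) {f : Ω → V} {B : ℝ} (hf : AEStronglyMeasurable f μ)
    (hB : ∀ x, ‖f x‖ ≤ B) {c : Ω → ℂ} {D : ℝ} (hc : AM μ C c) (hD : ∀ᵐ x ∂μ, ‖c x‖ ≤ D)
    {G G' : Lp V 2 μ} (hG : ∀ᵐ x ∂μ, G' x = c x • G x) :
    μ[fun x => (inner ℂ (f x) (G' x) : ℂ)|C] =ᵐ[μ]
      fun x => c x * (μ[fun x => (inner ℂ (f x) (G x) : ℂ)|C]) x := by
  have hc0 : AEStronglyMeasurable c μ := AEStronglyMeasurable.mono hC hc
  have hu : Integrable (fun x => (inner ℂ (f x) (G x) : ℂ)) μ :=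
    (ps_inner_memLp hf hB G).integrable (by norm_num)
  have hi : Integrable (fun x => c x * (inner ℂ (f x) (G x) : ℂ)) μ := hu.bdd_mul hc0 hD
  have h1 := condExp_bilin_of_aestronglyMeasurable_left (μ := μ) (m := C)
    (ContinuousLinearMap.mul ℝ ℂ) (f := c) (g := fun x => (inner ℂ (f x) (G x) : ℂ)) hc hi hu
  refine (condExp_congr_ae ?_).trans h1
  filter_upwards [hG] with x hx
  rw [hx, inner_smul_right]
  rfl

theorem ps_mul_memLp (hC : Lm C) {c : Ω → ℂ} {D : ℝ} (hc : AM μ C c)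
    (hD : ∀ᵐ x ∂μ, ‖c x‖ ≤ D) (G : Lp V 2 μ) : MemLp (fun x => c x • G x) 2 μ := by
  have hc0 : AEStronglyMeasurable c μ := AEStronglyMeasurable.mono hC hc
  refine (Lp.memLp G).of_le_mul (c := D) (hc0.smul (Lp.aestronglyMeasurable G)) ?_
  filter_upwards [hD] with x hx
  rw [norm_smul]
  exact mul_le_mul_of_nonneg_right hx (norm_nonneg _)

theorem ps_int_comp {R : Ω → Ω} (hR : MeasurePreserving R μ μ) {g : Ω → ℂ}
    (hg : AEStronglyMeasurable g μ) : ∫ x, g (R x) ∂μ = ∫ x, g x ∂μ := by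
  have h := integral_map (μ := μ) hR.measurable.aemeasurable (f := g)
    (by rw [hR.map_eq]; exact hg)
  rw [hR.map_eq] at h
  exact h.symm

theorem ps_aesm {θ : Ω → V →L[ℂ] V} {R : Ω → Ω} (hR : MeasurePreserving R μ μ)
    (hθ : AEStronglyMeasurable θ μ) {F : Ω → V} (hF : AEStronglyMeasurable F μ) :
    AEStronglyMeasurable (fun x => θ x (F (R x))) μ := by
  have h1 : AEStronglyMeasurable (fun x => F (R x)) μ := hF.comp_measurePreserving hR
  exact (ContinuousLinearMap.id ℂ (V →L[ℂ] V)).aestronglyMeasurable_comp₂ hθ h1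

theorem Wi_succ (θ : Ω → V →L[ℂ] V) (R : Ω → Ω) (h : ℕ) (F : Ω → V) :
    Wi θ R (h + 1) F = fun x => θ x (Wi θ R h F (R x)) :=
  Function.iterate_succ_apply' _ _ _

theorem ps_Wi_aesm {θ : Ω → V →L[ℂ] V} {R : Ω → Ω} (hR : MeasurePreserving R μ μ)
    (hθ : AEStronglyMeasurable θ μ) {F : Ω → V} (hF : AEStronglyMeasurable F μ) (h : ℕ) :
    AEStronglyMeasurable (Wi θ R h F) μ := by
  induction h with
  | zero => exact hF
  | succ h ih =>
    rw [Wi_succ]
    exact ps_aesm hR hθ ih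

theorem ps_Wi_bound {θ : Ω → V →L[ℂ] V} {R : Ω → Ω} (hθn : ∀ x v, ‖θ x v‖ = ‖v‖) {F : Ω → V}
    {B : ℝ} (hB : ∀ x, ‖F x‖ ≤ B) (h : ℕ) : ∀ x, ‖Wi θ R h F x‖ ≤ B := by
  induction h with
  | zero => exact hB
  | succ h ih =>
    intro x
    rw [Wi_succ]
    show ‖θ x (Wi θ R h F (R x))‖ ≤ B
    rw [hθn]
    exact ih _

theorem ps_Wi_int {θ : Ω → V →L[ℂ] V} {R : Ω → Ω} (hR : MeasurePreserving R μ μ)
    (hθ : AEStronglyMeasurable θ μ) (hθn : ∀ x v, ‖θ x v‖ = ‖v‖) {F : Ω → V}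
    (hF : AEStronglyMeasurable F μ) (h : ℕ) :
    ∫ x, ‖Wi θ R h F x‖ ^ 2 ∂μ = ∫ x, ‖F x‖ ^ 2 ∂μ := by
  induction h with
  | zero => rfl
  | succ h ih =>
    rw [Wi_succ, ← ih]
    have h1 : AEStronglyMeasurable (fun x => ‖Wi θ R h F x‖ ^ 2) μ :=
      (ps_Wi_aesm hR hθ hF h).norm.pow 2
    have h2 := integral_map (μ := μ) hR.measurable.aemeasurable
      (f := fun x => ‖Wi θ R h F x‖ ^ 2) (by rw [hR.map_eq]; exact h1)
    rw [hR.map_eq] at h2
    rw [h2]
    refine integral_congr_ae (Eventually.of_forall fun x => ?_)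
    show ‖θ x (Wi θ R h F (R x))‖ ^ 2 = _
    rw [hθn]

theorem ps_iso {L : V →L[ℂ] V} (hL : ∀ v, ‖L v‖ = ‖v‖) (v w : V) :
    (inner ℂ (L v) (L w) : ℂ) = inner ℂ v w := by
  let l : V →ₗᵢ[ℂ] V := ⟨(L : V →ₗ[ℂ] V), hL⟩
  exact l.inner_map_map v w

theorem ps_W_memLp {θ : Ω → V →L[ℂ] V} {R : Ω → Ω} (hR : MeasurePreserving R μ μ)
    (hθ : AEStronglyMeasurable θ μ) (hθn : ∀ x v, ‖θ x v‖ = ‖v‖) (G : Lp V 2 μ) :
    MemLp (fun x => θ x (G (R x))) 2 μ := by
  have h1 : MemLp (fun x => G (R x)) 2 μ := (Lp.memLp G).comp_measurePreserving hR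
  exact h1.of_le (ps_aesm hR hθ (Lp.aestronglyMeasurable G))
    (Eventually.of_forall fun x => (hθn x _).le)

/-- `G ↦ θ(x) G(R x)` is surjective -/
theorem ps_surj {θ : Ω → V →L[ℂ] V} {R R' : Ω → Ω} (hS : Sys μ R R')
    (hθ : AEStronglyMeasurable θ μ) (hθn : ∀ x v, ‖θ x v‖ = ‖v‖) (Z : Lp V 2 μ) :
    ∃ Z' : Lp V 2 μ, ∀ᵐ x ∂μ, Z x = θ x (Z' (R x)) := by
  haveI : CompleteSpace V := FiniteDimensional.complete ℂ V
  let A : Ω → V →L[ℂ] V := fun x => ContinuousLinearMap.adjoint (θ x)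
  have hA1 : ∀ x v, A x (θ x v) = v := by
    intro x v
    have h1 := (ContinuousLinearMap.norm_map_iff_adjoint_comp_self (θ x)).1 (hθn x)
    exact congrArg (fun T : V →L[ℂ] V => T v) h1
  have hA2 : ∀ x w, θ x (A x w) = w := by
    intro x w
    have hinj : Function.Injective (θ x : V →ₗ[ℂ] V) := by
      intro v v' hv
      have h2 := congrArg (A x) hv
      have h3 : A x (θ x v) = A x (θ x v') := h2
      rwa [hA1, hA1] at h3
    obtain ⟨v, hv⟩ := LinearMap.surjective_of_injective hinj w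
    have hv' : θ x v = w := hv
    rw [← hv', hA1]
  have hAn : ∀ x w, ‖A x w‖ = ‖w‖ := by
    intro x w
    rw [← hθn x (A x w), hA2]
  have hAm : AEStronglyMeasurable A μ :=
    (ContinuousLinearMap.adjoint (𝕜 := ℂ) (E := V) (F := V)).continuous.comp_aestronglyMeasurable hθ
  have hAR : AEStronglyMeasurable (fun x => A (R' x)) μ := hAm.comp_measurePreserving hS.mp'
  have hZR : MemLp (fun x => Z (R' x)) 2 μ := (Lp.memLp Z).comp_measurePreserving hS.mp'
  have hm : MemLp (fun x => A (R' x) (Z (R' x))) 2 μ := by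
    refine hZR.of_le ?_ (Eventually.of_forall fun x => (hAn _ _).le)
    exact (ContinuousLinearMap.id ℂ (V →L[ℂ] V)).aestronglyMeasurable_comp₂ hAR hZR.1
  refine ⟨hm.toLp _, ?_⟩
  have h1 := hS.mp.quasiMeasurePreserving.ae hm.coeFn_toLp
  filter_upwards [h1, hS.l] with x hx hx'
  rw [hx, hx', hA2]

theorem ps_conj {u : Ω → ℂ} (hu : Integrable u μ) :
    μ[fun x => conj (u x)|C] =ᵐ[μ] fun x => conj ((μ[u|C]) x) :=
  (ContinuousLinearMap.comp_condExp_comm (m := C) hu
    (Complex.conjCLE.toContinuousLinearMap : ℂ →L[ℝ] ℂ)).symm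

end gen

/-! ### weak limits -/

section weak

variable {H : Type} [NormedAddCommGroup H] [InnerProductSpace ℂ H] [CompleteSpace H]

theorem ps_weak (𝓤 : Ultrafilter ℕ) (P : ℕ → H →L[ℂ] H) (D : ℝ)
    (hP : ∀ n x y, ‖(inner ℂ (P n x) y : ℂ)‖ ≤ D * ‖x‖ * ‖y‖) :
    ∃ Q : H →L[ℂ] H, ∀ x y,
      Tendsto (fun n => (inner ℂ (P n x) y : ℂ)) 𝓤 (𝓝 (inner ℂ (Q x) y)) := by
  have hl : ∀ x y : H, ∃ z : ℂ, Tendsto (fun n => (inner ℂ (P n x) y : ℂ)) 𝓤 (𝓝 z) := by
    intro x y
    obtain ⟨z, _, hz⟩ := (isCompact_closedBall (0 : ℂ) (D * ‖x‖ * ‖y‖)).ultrafilter_le_nhds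
      (𝓤.map fun n => (inner ℂ (P n x) y : ℂ)) (by
        rw [Filter.le_principal_iff]
        refine Filter.mem_map.2 (Filter.univ_mem' fun n => ?_)
        show (inner ℂ (P n x) y : ℂ) ∈ Metric.closedBall (0 : ℂ) (D * ‖x‖ * ‖y‖)
        rw [mem_closedBall_zero_iff]
        exact hP n x y)
    exact ⟨z, hz⟩
  choose B hB using hl
  have hBb : ∀ x y, ‖B x y‖ ≤ D * ‖x‖ * ‖y‖ := fun x y =>
    le_of_tendsto (hB x y).norm (Eventually.of_forall fun n => hP n x y)
  let B1 : H →ₗ⋆[ℂ] H →ₗ[ℂ] ℂ := LinearMap.mk₂'ₛₗ (starRingEnd ℂ) (RingHom.id ℂ) B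
    (fun x x' y => tendsto_nhds_unique (hB (x + x') y) (by
      simpa [inner_add_left] using (hB x y).add (hB x' y)))
    (fun c x y => tendsto_nhds_unique (hB (c • x) y) (by
      simpa [inner_smul_left, mul_comm] using (hB x y).const_mul (conj c)))
    (fun x y y' => tendsto_nhds_unique (hB x (y + y')) (by
      simpa [inner_add_right] using (hB x y).add (hB x y')))
    (fun c x y => tendsto_nhds_unique (hB x (c • y)) (by
      simpa [inner_smul_right] using (hB x y).const_mul c))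
  let B2 : H →L⋆[ℂ] H →L[ℂ] ℂ := LinearMap.mkContinuous₂ B1 D hBb
  refine ⟨InnerProductSpace.continuousLinearMapOfBilin B2, fun x y => ?_⟩
  rw [InnerProductSpace.continuousLinearMapOfBilin_apply]
  exact hB x y

end weak

/-! ### the operator -/

/-- row PSI -/
theorem st_PSI (hCEC : ST_CEC) : ST_PSI := by
  intro Ω _ μ _ V _ _ _ R R' θ C F B hS hErg hIA hθ hθn hF hB
  have hC : Lm C := hIA.1
  have hB0 : 0 ≤ B := ps_B_nonneg μ hB
  have hfm : ∀ h, AEStronglyMeasurable (Wi θ R h F) μ := ps_Wi_aesm hS.mp hθ hF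
  have hfb : ∀ h x, ‖Wi θ R h F x‖ ≤ B := ps_Wi_bound hθn hB
  choose K hK hKn using fun h => ps_exK (μ := μ) C (hfm h) (hfb h)
  let P : ℕ → Lp V 2 μ →L[ℂ] Lp V 2 μ := fun H =>
    ((H : ℂ)⁻¹) • ∑ h ∈ range H, (ContinuousLinearMap.adjoint (K h)).comp (K h)
  have hPi : ∀ H x y, (inner ℂ (P H x) y : ℂ) =
      (H : ℂ)⁻¹ * ∑ h ∈ range H, (inner ℂ (K h x) (K h y) : ℂ) := by
    intro H x y
    show (inner ℂ ((((H : ℂ)⁻¹) • ∑ h ∈ range H,
      (ContinuousLinearMap.adjoint (K h)).comp (K h)) x) y : ℂ) = _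
    rw [_root_.smul_apply, inner_smul_left, ContinuousLinearMap.sum_apply, sum_inner]
    congr 1
    · simp
    · refine Finset.sum_congr rfl fun h _ => ?_
      rw [ContinuousLinearMap.comp_apply, ContinuousLinearMap.adjoint_inner_left]
  have hKK : ∀ h x y, ‖(inner ℂ (K h x) (K h y) : ℂ)‖ ≤ B ^ 2 * ‖x‖ * ‖y‖ := by
    intro h x y
    refine (norm_inner_le_norm _ _).trans ?_
    refine (mul_le_mul (hKn h x) (hKn h y) (norm_nonneg _) (by positivity)).trans (le_of_eq ?_)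
    ring
  have hPb : ∀ H x y, ‖(inner ℂ (P H x) y : ℂ)‖ ≤ B ^ 2 * ‖x‖ * ‖y‖ := by
    intro H x y
    rw [hPi, norm_mul, norm_inv, Complex.norm_natCast]
    have h1 : ‖∑ h ∈ range H, (inner ℂ (K h x) (K h y) : ℂ)‖ ≤ H * (B ^ 2 * ‖x‖ * ‖y‖) := by
      refine (norm_sum_le _ _).trans ?_
      refine (Finset.sum_le_sum fun h _ => hKK h x y).trans (le_of_eq ?_)
      rw [Finset.sum_const, card_range, nsmul_eq_mul]
    rcases Nat.eq_zero_or_pos H with h0 | h0
    · subst h0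
      simp
      positivity
    · have hH : (0 : ℝ) < H := by exact_mod_cast h0
      rw [inv_mul_le_iff₀ hH]
      exact h1
  -- the averages
  have hF2 : MemLp F 2 μ := MemLp.of_bound hF B (Eventually.of_forall hB)
  have hKF : ∀ (F' : Lp V 2 μ), F' =ᵐ[μ] F → ∀ h, ‖K h F'‖ ^ 2 =
      ∫ x, ‖(μ[fun x => (inner ℂ (F x) (Wi θ R h F x) : ℂ)|C]) x‖ ^ 2 ∂μ := by
    intro F' hF' h
    rw [ps_norm_sq]
    refine integral_congr_ae ?_
    have h1 : μ[fun x => (inner ℂ (Wi θ R h F x) (F' x) : ℂ)|C] =ᵐ[μ]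
        μ[fun x => conj (inner ℂ (F x) (Wi θ R h F x) : ℂ)|C] := by
      refine condExp_congr_ae ?_
      filter_upwards [hF'] with x hx
      rw [hx, inner_conj_symm]
    have h2 : Integrable (fun x => (inner ℂ (F x) (Wi θ R h F x) : ℂ)) μ := by
      have h3 := ps_inner_memLp hF hB ((MemLp.of_bound (hfm h) B
        (Eventually.of_forall (hfb h)) : MemLp (Wi θ R h F) 2 μ).toLp _)
      refine (h3.integrable (by norm_num)).congr ?_
      filter_upwards [(MemLp.of_bound (hfm h) B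
        (Eventually.of_forall (hfb h)) : MemLp (Wi θ R h F) 2 μ).coeFn_toLp] with x hx
      rw [hx]
    filter_upwards [hK h F', h1, ps_conj (C := C) h2] with x h3 h4 h5
    rw [h3, h4, h5, RCLike.norm_conj]
  have hal : ∀ (F' : Lp V 2 μ), F' =ᵐ[μ] F → ∀ H, (inner ℂ (P H F') F' : ℂ) =
      ((al μ C R θ F H : ℝ) : ℂ) := by
    intro F' hF' H
    rw [hPi]
    have h1 : ∀ h, (inner ℂ (K h F') (K h F') : ℂ) =
        ((∫ x, ‖(μ[fun x => (inner ℂ (F x) (Wi θ R h F x) : ℂ)|C]) x‖ ^ 2 ∂μ : ℝ) : ℂ) := by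
      intro h
      rw [← hKF F' hF' h]
      have h2 : (inner ℂ (K h F') (K h F') : ℂ) = ((‖K h F'‖ : ℂ)) ^ 2 :=
        inner_self_eq_norm_sq_to_K _
      rw [h2, Complex.ofReal_pow]
    rw [Finset.sum_congr rfl fun h _ => h1 h]
    unfold al
    rw [div_eq_inv_mul]
    push_cast
    rfl
  have hal0 : ∀ H, al μ C R θ F H ∈ Set.Icc (0 : ℝ) (B ^ 2 * ‖hF2.toLp F‖ * ‖hF2.toLp F‖) := by
    intro H
    constructor
    · unfold al
      exact div_nonneg (Finset.sum_nonneg fun h _ => integral_nonneg fun x => sq_nonneg _)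
        (Nat.cast_nonneg _)
    · have h1 := hPb H (hF2.toLp F) (hF2.toLp F)
      rw [hal _ hF2.coeFn_toLp, Complex.norm_real] at h1
      exact (Real.le_norm_self _).trans h1
  have hbd : IsBoundedUnder (· ≤ ·) atTop (al μ C R θ F) :=
    isBoundedUnder_of ⟨_, fun H => (hal0 H).2⟩
  have hcb : IsCoboundedUnder (· ≤ ·) atTop (al μ C R θ F) :=
    (isBoundedUnder_of (r := (· ≥ ·)) ⟨0, fun H => (hal0 H).1⟩ :
      IsBoundedUnder (· ≥ ·) atTop (al μ C R θ F)).isCoboundedUnder_le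
  obtain ⟨𝓤, h𝓤, hlim⟩ := mapClusterPt_iff_ultrafilter.1
    (MapClusterPt.limsup (u := al μ C R θ F) (f := atTop) hcb hbd)
  obtain ⟨Q, hQ⟩ := ps_weak 𝓤 P (B ^ 2) hPb
  refine ⟨Q, ?_, ?_, ?_, ?_, ?_, ?_, ?_⟩
  · -- self adjoint
    rw [ContinuousLinearMap.isSelfAdjoint_iff_isSymmetric]
    intro x y
    show (inner ℂ (Q x) y : ℂ) = inner ℂ x (Q y)
    have h2 : Tendsto (fun n => (inner ℂ (P n x) y : ℂ)) 𝓤 (𝓝 (inner ℂ x (Q y))) := by
      have h3 := (Complex.continuous_conj.tendsto _).comp (hQ y x)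
      have h4 : (fun n => (inner ℂ (P n x) y : ℂ)) = (fun z : ℂ => conj z) ∘
          fun n => (inner ℂ (P n y) x : ℂ) := by
        funext n
        simp only [Function.comp]
        rw [hPi, hPi, map_mul, map_sum]
        congr 1
        · simp
        · exact Finset.sum_congr rfl fun h _ => (inner_conj_symm _ _).symm
      rw [h4, ← inner_conj_symm (𝕜 := ℂ) x (Q y)]
      exact h3
    exact tendsto_nhds_unique (hQ x y) h2
  · -- positive
    intro G
    have h1 : Tendsto (fun n => RCLike.re (inner ℂ (P n G) G : ℂ)) 𝓤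
        (𝓝 (RCLike.re (inner ℂ (Q G) G : ℂ))) :=
      (RCLike.continuous_re.tendsto _).comp (hQ G G)
    refine ge_of_tendsto h1 (Eventually.of_forall fun n => ?_)
    rw [hPi]
    have h2 : (n : ℂ)⁻¹ * ∑ h ∈ range n, (inner ℂ (K h G) (K h G) : ℂ) =
        (((n : ℝ)⁻¹ * ∑ h ∈ range n, ‖K h G‖ ^ 2 : ℝ) : ℂ) := by
      push_cast
      congr 1
      exact Finset.sum_congr rfl fun h _ => inner_self_eq_norm_sq_to_K _
    rw [h2]
    have h3 : (0 : ℝ) ≤ (n : ℝ)⁻¹ * ∑ h ∈ range n, ‖K h G‖ ^ 2 := by positivity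
    exact h3.trans_eq (Complex.ofReal_re _).symm
  · -- multiplication
    rintro c G G' hc ⟨D, hD⟩ hG
    have hcc : AM μ C (fun x => conj (c x)) := Complex.continuous_conj.comp_aestronglyMeasurable hc
    have hcD : ∀ᵐ x ∂μ, ‖conj (c x)‖ ≤ D := by
      filter_upwards [hD] with x hx
      rwa [RCLike.norm_conj]
    have hY := ps_mul_memLp hC hc hD (Q G)
    have hkey : Q G' = hY.toLp _ := by
      refine ext_inner_right ℂ fun Z => ?_
      have hZ := ps_mul_memLp hC hcc hcD Z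
      have h1 : ∀ h, (inner ℂ (K h G') (K h Z) : ℂ) = inner ℂ (K h G) (K h (hZ.toLp _)) := by
        intro h
        rw [L2.inner_def, L2.inner_def]
        refine integral_congr_ae ?_
        have h2 := ps_Kc hC (hfm h) (hfb h) hc hD hG
        have h3 := ps_Kc hC (hfm h) (hfb h) hcc hcD (G := Z) (G' := hZ.toLp _) hZ.coeFn_toLp
        filter_upwards [hK h G', hK h G, hK h Z, hK h (hZ.toLp _), h2, h3] with x e1 e2 e3 e4 e5 e6
        rw [e1, e2, e3, e4, e5, e6, ← smul_eq_mul, ← smul_eq_mul, inner_smul_left,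
          inner_smul_right]
      have h4 : (inner ℂ (Q G') Z : ℂ) = inner ℂ (Q G) (hZ.toLp _) := by
        refine tendsto_nhds_unique (hQ G' Z) ?_
        refine (hQ G (hZ.toLp _)).congr fun n => ?_
        rw [hPi, hPi, Finset.sum_congr rfl fun h _ => h1 h]
      rw [h4, L2.inner_def, L2.inner_def]
      refine integral_congr_ae ?_
      filter_upwards [hZ.coeFn_toLp, hY.coeFn_toLp] with x e1 e2
      rw [e1, e2, inner_smul_left, inner_smul_right]
    filter_upwards [hY.coeFn_toLp] with x hx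
    rw [hkey, hx]
  · -- the transformation
    intro G G' hG
    have hY := ps_W_memLp hS.mp hθ hθn (Q G)
    have hkey : Q G' = hY.toLp _ := by
      refine ext_inner_right ℂ fun Z => ?_
      obtain ⟨Z', hZ⟩ := ps_surj hS hθ hθn Z
      -- one step
      have hst : ∀ (h : ℕ) (G G' : Lp V 2 μ), (∀ᵐ x ∂μ, G' x = θ x (G (R x))) →
          ∀ᵐ x ∂μ, K (h + 1) G' x = K h G (R x) := by
        intro h G G' hG
        have h1 : μ[fun x => (inner ℂ (Wi θ R (h + 1) F x) (G' x) : ℂ)|C] =ᵐ[μ]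
            μ[fun x => (fun y => (inner ℂ (Wi θ R h F y) (G y) : ℂ)) (R x)|C] := by
          refine condExp_congr_ae ?_
          filter_upwards [hG] with x hx
          rw [hx, Wi_succ]
          exact ps_iso (hθn x) _ _
        have h2 := hCEC Ω μ R R' C (fun y => (inner ℂ (Wi θ R h F y) (G y) : ℂ)) hS hIA
          ((ps_inner_memLp (hfm h) (hfb h) G).integrable (by norm_num))
        have h3 := hS.mp.quasiMeasurePreserving.ae (hK h G)
        filter_upwards [hK (h + 1) G', h1, h2, h3] with x e1 e2 e3 e4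
        rw [e1, e2, e3, e4]
      have hst2 : ∀ h, (inner ℂ (K (h + 1) G') (K (h + 1) Z) : ℂ) =
          inner ℂ (K h G) (K h Z') := by
        intro h
        rw [L2.inner_def, L2.inner_def]
        have h1 := ps_int_comp hS.mp (g := fun x => (inner ℂ (K h G x) (K h Z' x) : ℂ))
          ((Lp.aestronglyMeasurable _).inner (Lp.aestronglyMeasurable _))
        rw [← h1]
        refine integral_congr_ae ?_
        filter_upwards [hst h G G' hG, hst h Z' Z hZ] with x e1 e2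
        rw [e1, e2]
      have hd : Tendsto (fun n => (inner ℂ (P n G') Z : ℂ) - inner ℂ (P n G) Z') atTop (𝓝 0) := by
        have h1 : ∀ n, (inner ℂ (P n G') Z : ℂ) - inner ℂ (P n G) Z' =
            (n : ℂ)⁻¹ * ((inner ℂ (K 0 G') (K 0 Z) : ℂ) - inner ℂ (K n G') (K n Z)) := by
          intro n
          rw [hPi, hPi, ← mul_sub, ← Finset.sum_sub_distrib]
          congr 1
          rw [← Finset.sum_range_sub' (fun h => (inner ℂ (K h G') (K h Z) : ℂ)) n]
          exact Finset.sum_congr rfl fun h _ => by rw [hst2 h]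
        rw [tendsto_zero_iff_norm_tendsto_zero]
        have h2 : Tendsto (fun n : ℕ => (2 * (B ^ 2 * ‖G'‖ * ‖Z‖)) * (n : ℝ)⁻¹) atTop (𝓝 0) := by
          have h3 := tendsto_inv_atTop_nhds_zero_nat (𝕜 := ℝ)
          simpa using h3.const_mul (2 * (B ^ 2 * ‖G'‖ * ‖Z‖))
        refine squeeze_zero (fun n => norm_nonneg _) (fun n => ?_) h2
        rw [h1, norm_mul, norm_inv, Complex.norm_natCast, mul_comm]
        refine mul_le_mul_of_nonneg_right ?_ (by positivity)
        refine (norm_sub_le _ _).trans ?_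
        rw [two_mul]
        exact add_le_add (hKK 0 G' Z) (hKK n G' Z)
      have h4 : (inner ℂ (Q G') Z : ℂ) = inner ℂ (Q G) Z' := by
        have h5 := (hQ G' Z).sub (hQ G Z')
        have h6 := tendsto_nhds_unique h5 (hd.mono_left h𝓤)
        exact sub_eq_zero.1 h6
      rw [h4, L2.inner_def, L2.inner_def]
      have h7 := ps_int_comp hS.mp (g := fun x => (inner ℂ (Q G x) (Z' x) : ℂ))
          ((Lp.aestronglyMeasurable _).inner (Lp.aestronglyMeasurable _))
      rw [← h7]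
      refine integral_congr_ae ?_
      filter_upwards [hZ, hY.coeFn_toLp] with x e1 e2
      rw [e1, e2]
      exact (ps_iso (hθn x) _ _).symm
    filter_upwards [hY.coeFn_toLp] with x hx
    rw [hkey, hx]
  · -- the limit of the averages
    intro F' hF'
    have h1 : Tendsto (fun n => RCLike.re (inner ℂ (P n F') F' : ℂ)) 𝓤
        (𝓝 (RCLike.re (inner ℂ (Q F') F' : ℂ))) :=
      (RCLike.continuous_re.tendsto _).comp (hQ F' F')
    refine tendsto_nhds_unique hlim (h1.congr fun n => ?_)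
    rw [hal F' hF']
    exact Complex.ofReal_re _
  · -- Bessel
    intro m e he
    have h1 : Tendsto (fun n => ∑ a, RCLike.re (inner ℂ (P n (e a)) (e a) : ℂ)) 𝓤
        (𝓝 (∑ a, RCLike.re (inner ℂ (Q (e a)) (e a) : ℂ))) :=
      tendsto_finsetSum _ fun a _ => (RCLike.continuous_re.tendsto _).comp (hQ (e a) (e a))
    refine le_of_tendsto h1 (Eventually.of_forall fun n => ?_)
    have h2 : ∀ a, RCLike.re (inner ℂ (P n (e a)) (e a) : ℂ) =
        (n : ℝ)⁻¹ * ∑ h ∈ range n, ‖K h (e a)‖ ^ 2 := by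
      intro a
      rw [hPi]
      have h2 : (n : ℂ)⁻¹ * ∑ h ∈ range n, (inner ℂ (K h (e a)) (K h (e a)) : ℂ) =
          (((n : ℝ)⁻¹ * ∑ h ∈ range n, ‖K h (e a)‖ ^ 2 : ℝ) : ℂ) := by
        push_cast
        congr 1
        exact Finset.sum_congr rfl fun h _ => inner_self_eq_norm_sq_to_K _
      rw [h2]
      exact Complex.ofReal_re _
    rw [Finset.sum_congr rfl fun a _ => h2 a, ← Finset.mul_sum, Finset.sum_comm]
    have h3 : ∀ h, ∑ a, ‖K h (e a)‖ ^ 2 ≤ ∫ x, ‖F x‖ ^ 2 ∂μ := by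
      intro h
      rw [← ps_Wi_int hS.mp hθ hθn hF h]
      refine le_trans (le_of_eq ?_) (ps_bessel hC (hfm h) (hfb h) e he)
      refine Finset.sum_congr rfl fun a _ => ?_
      rw [ps_norm_sq]
      refine integral_congr_ae ?_
      filter_upwards [hK h (e a)] with x hx
      rw [hx]
    have h4 : ∑ h ∈ range n, ∑ a, ‖K h (e a)‖ ^ 2 ≤ n * ∫ x, ‖F x‖ ^ 2 ∂μ := by
      refine (Finset.sum_le_sum fun h _ => h3 h).trans (le_of_eq ?_)
      rw [Finset.sum_const, card_range, nsmul_eq_mul]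
    rcases Nat.eq_zero_or_pos n with h0 | h0
    · subst h0
      simp
      exact integral_nonneg fun x => sq_nonneg _
    · have hn : (0 : ℝ) < n := by exact_mod_cast h0
      rw [inv_mul_le_iff₀ hn]
      exact h4
  · -- modules
    intro E hE hFE G
    have hmem : ∀ h, ∀ F' : Lp V 2 μ, F' =ᵐ[μ] Wi θ R h F → F' ∈ E := by
      intro h
      induction h with
      | zero => exact hFE
      | succ h ih =>
        intro F' hF'
        have h1 : MemLp (Wi θ R h F) 2 μ := MemLp.of_bound (hfm h) B (Eventually.of_forall (hfb h))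
        refine hE.comp (h1.toLp _) (ih _ h1.coeFn_toLp) F' ?_
        have h2 := hS.mp.quasiMeasurePreserving.ae h1.coeFn_toLp
        filter_upwards [hF', h2] with x e1 e2
        rw [e1, Wi_succ, e2]
    have hKz : ∀ h, ∀ Z ∈ Eᗮ, K h Z = 0 := by
      intro h Z hZ
      have hi : Integrable (fun x => (inner ℂ (Wi θ R h F x) (Z x) : ℂ)) μ :=
        (ps_inner_memLp (hfm h) (hfb h) Z).integrable (by norm_num)
      have h1 : μ[fun x => (inner ℂ (Wi θ R h F x) (Z x) : ℂ)|C] =ᵐ[μ] fun _ => 0 := by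
        refine (ae_eq_condExp_of_forall_setIntegral_eq (m := C) hC hi
          (fun s _ _ => integrableOn_zero) (fun s hs _ => ?_)
          aestronglyMeasurable_const).symm
        have hs0 : MeasurableSet s := hC s hs
        have hc : AM μ C (s.indicator fun _ => (1 : ℂ)) :=
          (StronglyMeasurable.indicator stronglyMeasurable_const hs).aestronglyMeasurable
        have hc1 : ∀ᵐ x ∂μ, ‖s.indicator (fun _ => (1 : ℂ)) x‖ ≤ 1 :=
          Eventually.of_forall fun x => by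
            by_cases hx : x ∈ s <;> simp [hx]
        have hf2 : MemLp (Wi θ R h F) 2 μ :=
          MemLp.of_bound (hfm h) B (Eventually.of_forall (hfb h))
        have hm := ps_mul_memLp hC hc hc1 (hf2.toLp _)
        have h2 : hm.toLp _ ∈ E :=
          hE.mul _ (hmem h _ hf2.coeFn_toLp) _ hc ⟨1, hc1⟩ _ hm.coeFn_toLp
        have h3 : (inner ℂ (hm.toLp _) Z : ℂ) = 0 := (Submodule.mem_orthogonal _ _).1 hZ _ h2
        rw [L2.inner_def] at h3
        rw [integral_zero, ← integral_indicator hs0, ← h3]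
        refine integral_congr_ae ?_
        filter_upwards [hm.coeFn_toLp, hf2.coeFn_toLp] with x e1 e2
        rw [e1, e2]
        by_cases hx : x ∈ s <;> simp [hx]
      apply Lp.ext
      refine ((hK h Z).trans h1).trans ?_
      exact (Lp.coeFn_zero ℂ 2 μ).symm
    have hcl : E.topologicalClosure = E := hE.closed.submodule_topologicalClosure_eq
    rw [← hcl, ← Submodule.orthogonal_orthogonal_eq_closure, Submodule.mem_orthogonal]
    intro Z hZ
    have h1 : (inner ℂ (Q G) Z : ℂ) = 0 := by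
      refine tendsto_nhds_unique (hQ G Z) ?_
      refine tendsto_const_nhds.congr fun n => ?_
      rw [hPi]
      have h2 : ∀ h, (inner ℂ (K h G) (K h Z) : ℂ) = 0 := by
        intro h
        rw [hKz h Z hZ, inner_zero_right]
      rw [Finset.sum_congr rfl fun h _ => h2 h]
      simp
    rw [← inner_conj_symm, h1, map_zero]

end Pool.Agent.Helper19.TWR
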